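import Mathlib
import Pool.Agent.H90.HpD

namespace Pool.Agent.Results.MP_7549e3_an.Semisimple

/-- every bounded derivation into the dual module is inner -/
def WeaklyAmenable (A : Type) [NormedCommRing A] [NormedAlgebra ℂ A] : Prop :=
  ∀ D : A →L[ℂ] (A →L[ℂ] ℂ), (∀ a b x, D (a * b) x = D b (x * a) + D a (b * x)) →
    ∃ f : A →L[ℂ] ℂ, ∀ a x, D a x = f (x * a) - f (a * x)

theorem result : ∃ (A : Type) (_ : NormedCommRing A) (_ : NormedAlgebra ℂ A) (_ : CompleteSpace A),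
    WeaklyAmenable A ∧ Ring.jacobson A = ⊥ ∧ Ring.jacobson A ≠ ⊤ ∧
    ∃ (B : Type) (_ : NormedCommRing B) (_ : NormedAlgebra ℂ B) (_ : CompleteSpace B)
      (φ ψ : A →ₐ[ℂ] B), Continuous φ ∧ Continuous ψ ∧ φ ≠ ψ ∧
        ∀ a, φ a - ψ a ∈ Ring.jacobson B := by
  obtain ⟨B, i1, i2, i3, u, h1, h2, h3⟩ := Pool.Agent.H90.Hp.exists_data
  obtain ⟨w, j, nt, φ, ψ, h⟩ := Pool.Agent.H90.Hp.main u h1 h2 h3
  refine ⟨Pool.Agent.H90.Hp.AT u, inferInstance, inferInstance, inferInstance, ?_, j, ?_,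
    B, i1, i2, i3, φ, ψ, h⟩
  · intro D hD
    exact ⟨0, fun a x => by rw [w D hD]; simp⟩
  · rw [j]; exact bot_ne_top

end Pool.Agent.Results.MP_7549e3_an.Semisimple
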